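import Pool.Agent.helper91.SI.Spec

set_option autoImplicit false

namespace Pool.Agent.helper91.SI

open Pool.Agent.helper20.IG (IsIndepDom IsISet iGraph)

theorem SML_ne {V : Type} {G : SimpleGraph V} {n : ℕ} (e : SimpleGraph.cycleGraph n ≃g G)
    (a b : Fin n) (h : a ≠ b) : e a ≠ e b := fun h2 => h (e.injective h2)

theorem SML : SML_stmt := by
  intro V G n h3 h4 h6 h7 he
  obtain ⟨e⟩ := he
  refine ⟨?_, ?_, ?_, ?_⟩
  · intro hn
    subst hn
    exact h3 (e 0) (e 1) (e 2) (e.map_adj_iff.2 (by decide)) (e.map_adj_iff.2 (by decide))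
      (e.map_adj_iff.2 (by decide))
  · intro hn
    subst hn
    exact h4 (e 0) (e 1) (e 2) (e 3) (e.map_adj_iff.2 (by decide)) (e.map_adj_iff.2 (by decide))
      (e.map_adj_iff.2 (by decide)) (e.map_adj_iff.2 (by decide)) (SML_ne e _ _ (by decide))
      (SML_ne e _ _ (by decide))
  · intro hn
    subst hn
    refine h6 (e 0) (e 1) (e 2) (e 3) (e 4) (e 5) ?_ (e.map_adj_iff.2 (by decide))
      (e.map_adj_iff.2 (by decide)) (e.map_adj_iff.2 (by decide)) (e.map_adj_iff.2 (by decide))
      (e.map_adj_iff.2 (by decide)) (e.map_adj_iff.2 (by decide))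
    have h : ([0, 1, 2, 3, 4, 5] : List (Fin 6)).Nodup := by decide
    exact h.map e.injective
  · intro hn
    subst hn
    refine h7 (e 0) (e 1) (e 2) (e 3) (e 4) (e 5) (e 6) ?_ (e.map_adj_iff.2 (by decide))
      (e.map_adj_iff.2 (by decide)) (e.map_adj_iff.2 (by decide)) (e.map_adj_iff.2 (by decide))
      (e.map_adj_iff.2 (by decide)) (e.map_adj_iff.2 (by decide)) (e.map_adj_iff.2 (by decide))
    have h : ([0, 1, 2, 3, 4, 5, 6] : List (Fin 7)).Nodup := by decide
    exact h.map e.injective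

end Pool.Agent.helper91.SI
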